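import Mathlib

/-!
# Unit-perimeter triangles: at least `n ^ (4 / 3) / 70`

Fix one vertex at the origin and write the other two as `f v = v ^ 2 / (2 (1 + |v| ^ 2))` and
`f w`.  The triangle `0, f v, f w` has perimeter `1` as soon as `det (v, w) = 1`.  So the incidences
between points and lines of a grid give unit-perimeter triangles.
-/

set_option autoImplicit false

open Finset

namespace Pool.Agent.Results.MP_75315a_co.FourThirds

/-- The Euclidean plane. -/
abbrev Plane : Type := EuclideanSpace ℝ (Fin 2)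

/-- The unit-perimeter triangles spanned by `P`: the three-element subsets `{a, b, c}` of `P` whose
points are not collinear and satisfy `|ab| + |bc| + |ca| = 1`. -/
def unitTriangles (P : Finset Plane) : Set (Finset Plane) :=
  {T | T ⊆ P ∧ ∃ a b c : Plane, AffineIndependent ℝ ![a, b, c] ∧
    dist a b + dist b c + dist c a = 1 ∧ T = {a, b, c}}

/-- The maximum number of unit-perimeter triangles spanned by `n` points of the plane. -/
noncomputable def u (n : ℕ) : ℕ :=
  sSup {m : ℕ | ∃ P : Finset Plane, P.card = n ∧ m = (unitTriangles P).ncard}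

/-! ### The map `f` -/

/-- real part of `f (x + i y)` -/
noncomputable def fr (x y : ℝ) : ℝ := (x ^ 2 - y ^ 2) / (2 * (1 + x ^ 2 + y ^ 2))

/-- imaginary part of `f (x + i y)` -/
noncomputable def fi (x y : ℝ) : ℝ := (2 * x * y) / (2 * (1 + x ^ 2 + y ^ 2))

/-- the point `f (x + i y)` -/
noncomputable def f (x y : ℝ) : Plane := !₂[fr x y, fi x y]

lemma dist_eq' (a b c d : ℝ) (r : ℝ) (hr : 0 ≤ r) (h : (a - c) ^ 2 + (b - d) ^ 2 = r ^ 2) :
    dist (!₂[a, b] : Plane) !₂[c, d] = r := by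
  rw [EuclideanSpace.dist_eq]
  simp only [Fin.sum_univ_two, Real.dist_eq, sq_abs]
  simp only [Matrix.cons_val_zero, Matrix.cons_val_one]
  rw [h]
  exact Real.sqrt_sq hr

lemma pos1 (x y : ℝ) : 0 < 1 + x ^ 2 + y ^ 2 := by positivity

lemma dist_zero_f (x y : ℝ) :
    dist (0 : Plane) (f x y) = (x ^ 2 + y ^ 2) / (2 * (1 + x ^ 2 + y ^ 2)) := by
  have h := pos1 x y
  have e : (0 : Plane) = !₂[(0 : ℝ), 0] := by ext i; fin_cases i <;> simp
  rw [e, f]
  refine dist_eq' _ _ _ _ _ (by positivity) ?_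
  unfold fr fi
  field_simp
  ring

lemma dist_f_f (x y z t : ℝ) (h : x * t - y * z = 1 ∨ x * t - y * z = -1) :
    dist (f x y) (f z t) = 1 / (2 * (1 + x ^ 2 + y ^ 2)) + 1 / (2 * (1 + z ^ 2 + t ^ 2)) := by
  have h1 := pos1 x y
  have h2 := pos1 z t
  have hd : (x * t - y * z) ^ 2 = 1 := by
    rcases h with h | h <;> rw [h] <;> norm_num
  rw [f, f]
  refine dist_eq' _ _ _ _ _ (by positivity) ?_
  unfold fr fi
  field_simp
  linear_combination (4 * (1 + x ^ 2 + y ^ 2) * (1 + z ^ 2 + t ^ 2)) * hd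

lemma perimeter (x y z t : ℝ) (h : x * t - y * z = 1 ∨ x * t - y * z = -1) :
    dist (0 : Plane) (f x y) + dist (f x y) (f z t) + dist (f z t) 0 = 1 := by
  have h1 := pos1 x y
  have h2 := pos1 z t
  rw [dist_comm (f z t) 0, dist_zero_f, dist_zero_f, dist_f_f x y z t h]
  field_simp
  ring

lemma f_inj {x y z t : ℝ} (hx : 0 < x) (hz : 0 < z) (h : f x y = f z t) : x = z ∧ y = t := by
  have h1 := pos1 x y
  have h2 := pos1 z t
  have hn : dist (0 : Plane) (f x y) = dist (0 : Plane) (f z t) := by rw [h]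
  rw [dist_zero_f, dist_zero_f] at hn
  have hs : x ^ 2 + y ^ 2 = z ^ 2 + t ^ 2 := by
    rw [div_eq_div_iff (by positivity) (by positivity)] at hn
    linear_combination hn / 2
  have hr : fr x y = fr z t := by
    have := congrArg (fun p : Plane => p 0) h
    simpa [f] using this
  have hi : fi x y = fi z t := by
    have := congrArg (fun p : Plane => p 1) h
    simpa [f] using this
  have hs' : 1 + x ^ 2 + y ^ 2 = 1 + z ^ 2 + t ^ 2 := by linarith
  unfold fr at hr
  unfold fi at hi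
  rw [hs'] at hr hi
  have hr' : x ^ 2 - y ^ 2 = z ^ 2 - t ^ 2 := by
    rw [div_left_inj' (by positivity)] at hr
    exact hr
  have hi' : 2 * x * y = 2 * z * t := by
    rw [div_left_inj' (by positivity)] at hi
    exact hi
  have hxz : x ^ 2 = z ^ 2 := by linarith
  have hxz' : x = z := by
    have := (sq_eq_sq₀ hx.le hz.le).1 hxz
    exact this
  refine ⟨hxz', ?_⟩
  subst hxz'
  have : 2 * x * (y - t) = 0 := by linarith
  rcases mul_eq_zero.1 this with h3 | h3
  · linarith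
  · linarith

lemma f_ne_zero {x y : ℝ} (hx : 0 < x) : f x y ≠ 0 := by
  intro h
  have h1 := dist_zero_f x y
  rw [h, dist_self] at h1
  have h2 := pos1 x y
  have : 0 < (x ^ 2 + y ^ 2) / (2 * (1 + x ^ 2 + y ^ 2)) := by positivity
  linarith

/-- the triangle is not degenerate -/
lemma affInd (x y z t : ℝ) (h1 : x * t - y * z ≠ 0) (h2 : x * z + y * t ≠ 0) :
    AffineIndependent ℝ ![(0 : Plane), f x y, f z t] := by
  have p1 := pos1 x y
  have p2 := pos1 z t
  rw [affineIndependent_iff_linearIndependent_vsub ℝ _ (0 : Fin 3)]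
  have hli : LinearIndependent ℝ ![f x y, f z t] := by
    rw [LinearIndependent.pair_iff]
    intro s r hsr
    have e0 : s * fr x y + r * fr z t = 0 := by
      have := congrArg (fun p : Plane => p 0) hsr
      simpa [f] using this
    have e1 : s * fi x y + r * fi z t = 0 := by
      have := congrArg (fun p : Plane => p 1) hsr
      simpa [f] using this
    have hdet : fr x y * fi z t - fi x y * fr z t ≠ 0 := by
      have : fr x y * fi z t - fi x y * fr z t =
          (2 * (x * z + y * t) * (x * t - y * z)) /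
            ((2 * (1 + x ^ 2 + y ^ 2)) * (2 * (1 + z ^ 2 + t ^ 2))) := by
        unfold fr fi
        field_simp
        ring
      rw [this]
      refine div_ne_zero ?_ (by positivity)
      exact mul_ne_zero (mul_ne_zero two_ne_zero h2) h1
    constructor
    · have : s * (fr x y * fi z t - fi x y * fr z t) = 0 := by
        linear_combination fi z t * e0 - fr z t * e1
      exact (mul_eq_zero.1 this).resolve_right hdet
    · have : r * (fr x y * fi z t - fi x y * fr z t) = 0 := by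
        linear_combination fr x y * e1 - fi x y * e0
      exact (mul_eq_zero.1 this).resolve_right hdet
  rw [← linearIndependent_equiv (finSuccAboveEquiv (0 : Fin 3))]
  have e : ((fun i : {w : Fin 3 // w ≠ 0} => (![(0 : Plane), f x y, f z t] i -ᵥ
      ![(0 : Plane), f x y, f z t] 0)) ∘ (finSuccAboveEquiv 0)) = ![f x y, f z t] := by
    funext i
    fin_cases i <;> simp [finSuccAboveEquiv]
  rw [e]
  exact hli

/-! ### Counting -/

lemma finite_tri (P : Finset Plane) : (unitTriangles P).Finite := by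
  classical
  refine (Finset.finite_toSet P.powerset).subset ?_
  rintro T ⟨hT, _⟩
  exact Finset.mem_coe.2 (Finset.mem_powerset.2 hT)

lemma ncard_le (P : Finset Plane) : (unitTriangles P).ncard ≤ 2 ^ P.card := by
  classical
  rw [← Finset.card_powerset, ← Set.ncard_coe_finset]
  refine Set.ncard_le_ncard ?_ (Finset.finite_toSet _)
  rintro T ⟨hT, _⟩
  exact Finset.mem_coe.2 (Finset.mem_powerset.2 hT)

lemma le_u {n : ℕ} (P : Finset Plane) (hP : P.card = n) : (unitTriangles P).ncard ≤ u n := by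
  refine le_csSup ⟨2 ^ n, ?_⟩ ⟨P, hP, rfl⟩
  rintro m ⟨Q, hQ, rfl⟩
  rw [← hQ]
  exact ncard_le Q

/-- indices `(m, c, x)`: the point `(x, m x + c)` of the line `Y = m X + c` -/
def idx (k : ℕ) : Finset (ℕ × ℕ × ℕ) := Icc 1 k ×ˢ Icc 2 (k ^ 2 + 1) ×ˢ Icc 1 k

/-- the point of index `(m, c, x)` -/
noncomputable def pA (i : ℕ × ℕ × ℕ) : Plane := f i.2.2 (i.1 * i.2.2 + i.2.1)

/-- the line of index `(m, c)` -/
noncomputable def pC (m c : ℕ) : Plane := f (1 / c) (m / c)

open Classical in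
/-- the triangles -/
noncomputable def tri (i : ℕ × ℕ × ℕ) : Finset Plane := {0, pA i, pC i.1 i.2.1}

open Classical in
/-- the points -/
noncomputable def pts (k : ℕ) : Finset Plane :=
  insert 0 (((Icc 1 k ×ˢ Icc 3 (2 * k ^ 2 + 1)).image fun p : ℕ × ℕ => f p.1 p.2) ∪
    ((Icc 1 k ×ˢ Icc 2 (k ^ 2 + 1)).image fun p : ℕ × ℕ => pC p.1 p.2))

lemma card_pts {k : ℕ} (hk : 1 ≤ k) : (pts k).card ≤ 3 * k ^ 3 := by
  classical
  have h1 : (pts k).card ≤ (k * (2 * k ^ 2 - 1) + k * k ^ 2) + 1 := by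
    unfold pts
    refine (Finset.card_insert_le _ _).trans ?_
    refine Nat.add_le_add_right ?_ 1
    refine (Finset.card_union_le _ _).trans ?_
    refine Nat.add_le_add ?_ ?_
    · refine Finset.card_image_le.trans ?_
      rw [Finset.card_product, Nat.card_Icc, Nat.card_Icc]
      refine Nat.mul_le_mul ?_ ?_ <;> omega
    · refine Finset.card_image_le.trans ?_
      rw [Finset.card_product, Nat.card_Icc, Nat.card_Icc]
      refine Nat.mul_le_mul ?_ ?_ <;> omega
  have h2 : 1 ≤ 2 * k ^ 2 := by nlinarith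
  obtain ⟨j, hj⟩ := Nat.exists_eq_add_of_le h2
  have h3 : 2 * k ^ 2 - 1 = j := by omega
  rw [h3] at h1
  nlinarith

lemma mem_idx {k m c x : ℕ} (h : (m, c, x) ∈ idx k) :
    (1 ≤ m ∧ m ≤ k) ∧ (2 ≤ c ∧ c ≤ k ^ 2 + 1) ∧ (1 ≤ x ∧ x ≤ k) := by
  simpa [idx] using h

lemma tri_sub {k : ℕ} {i : ℕ × ℕ × ℕ} (hi : i ∈ idx k) : tri i ⊆ pts k := by
  classical
  obtain ⟨m, c, x⟩ := i
  obtain ⟨⟨m1, m2⟩, ⟨c1, c2⟩, ⟨x1, x2⟩⟩ := mem_idx hi
  intro p hp
  simp only [tri, Finset.mem_insert, Finset.mem_singleton] at hp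
  unfold pts
  rw [Finset.mem_insert, Finset.mem_union]
  rcases hp with rfl | rfl | rfl
  · exact Or.inl rfl
  · right; left
    rw [Finset.mem_image]
    refine ⟨(x, m * x + c), ?_, ?_⟩
    · rw [Finset.mem_product, Finset.mem_Icc, Finset.mem_Icc]
      refine ⟨⟨x1, x2⟩, ?_, ?_⟩
      · have : 1 * 1 ≤ m * x := Nat.mul_le_mul m1 x1
        simp only
        omega
      · have : m * x ≤ k * k := Nat.mul_le_mul m2 x2
        simp only
        nlinarith
    · simp only [pA]
      push_cast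
      rfl
  · right; right
    rw [Finset.mem_image]
    exact ⟨(m, c), Finset.mem_product.2 ⟨Finset.mem_Icc.2 ⟨m1, m2⟩, Finset.mem_Icc.2 ⟨c1, c2⟩⟩, rfl⟩

lemma tri_good {k : ℕ} {i : ℕ × ℕ × ℕ} (hi : i ∈ idx k) (P : Finset Plane) (hP : pts k ⊆ P) :
    tri i ∈ unitTriangles P := by
  classical
  refine ⟨(tri_sub hi).trans hP, 0, pA i, pC i.1 i.2.1, ?_, ?_, ?_⟩
  · obtain ⟨m, c, x⟩ := i
    obtain ⟨⟨m1, m2⟩, ⟨c1, c2⟩, ⟨x1, x2⟩⟩ := mem_idx hi
    have hm : (1 : ℝ) ≤ m := by exact_mod_cast m1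
    have hc : (0 : ℝ) < c := by exact_mod_cast (by omega : 0 < c)
    have hx : (1 : ℝ) ≤ x := by exact_mod_cast x1
    refine affInd _ _ _ _ ?_ ?_
    · have : (x : ℝ) * (m / c) - (m * x + c) * (1 / c) = -1 := by field_simp; ring
      rw [this]; norm_num
    · have : 0 < (x : ℝ) * (1 / c) + (m * x + c) * (m / c) := by positivity
      exact this.ne'
  · obtain ⟨m, c, x⟩ := i
    obtain ⟨⟨m1, m2⟩, ⟨c1, c2⟩, ⟨x1, x2⟩⟩ := mem_idx hi
    have hc : (0 : ℝ) < c := by exact_mod_cast (by omega : 0 < c)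
    refine perimeter _ _ _ _ (Or.inr ?_)
    simp only
    field_simp
    ring
  · unfold tri
    congr!

lemma tri_inj {k : ℕ} : Set.InjOn tri (idx k : Set (ℕ × ℕ × ℕ)) := by
  classical
  rintro ⟨m, c, x⟩ hi ⟨m', c', x'⟩ hi' h
  obtain ⟨⟨m1, m2⟩, ⟨c1, c2⟩, ⟨x1, x2⟩⟩ := mem_idx (Finset.mem_coe.1 hi)
  obtain ⟨⟨m1', m2'⟩, ⟨c1', c2'⟩, ⟨x1', x2'⟩⟩ := mem_idx (Finset.mem_coe.1 hi')
  have hc : (2 : ℝ) ≤ c := by exact_mod_cast c1
  have hc' : (2 : ℝ) ≤ c' := by exact_mod_cast c1'
  have hx : (1 : ℝ) ≤ x := by exact_mod_cast x1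
  have hx' : (1 : ℝ) ≤ x' := by exact_mod_cast x1'
  have key : ∀ (a b : ℝ), 1 ≤ a → ∀ (d : ℕ) (e : ℕ), (2 : ℝ) ≤ d → f a b ≠ pC e d := by
    intro a b ha d e hd heq
    have h1 : (0 : ℝ) < 1 / d := by positivity
    have h2 := (f_inj (by linarith) h1 heq).1
    have h3 : (1 : ℝ) / d ≤ 1 / 2 := one_div_le_one_div_of_le (by norm_num) hd
    linarith
  -- the point
  have e1 : pA (m, c, x) = pA (m', c', x') := by
    have hm : pA (m, c, x) ∈ tri (m', c', x') := by
      rw [← h]; simp [tri]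
    simp only [tri, Finset.mem_insert, Finset.mem_singleton] at hm
    rcases hm with h1 | h1 | h1
    · exact absurd h1 (f_ne_zero (by simp only; linarith))
    · exact h1
    · exact absurd h1 (key _ _ (by simp only; exact hx) _ _ hc')
  have e2 : pC m c = pC m' c' := by
    have hm : pC m c ∈ tri (m', c', x') := by
      rw [← h]; simp [tri]
    simp only [tri, Finset.mem_insert, Finset.mem_singleton] at hm
    rcases hm with h1 | h1 | h1
    · exact absurd h1 (f_ne_zero (by positivity))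
    · exact absurd h1.symm (key _ _ (by simp only; exact hx') _ _ hc)
    · exact h1
  have hcpos : (0 : ℝ) < c := by linarith
  have hcpos' : (0 : ℝ) < c' := by linarith
  obtain ⟨g1, g2⟩ := f_inj (by simp only; linarith) (by simp only; linarith) e1
  obtain ⟨g3, g4⟩ := f_inj (by positivity) (by positivity) e2
  simp only at g1
  have q1 : x = x' := by exact_mod_cast g1
  have q2 : (c : ℝ) = c' := by
    field_simp at g3
    linarith
  have q2' : c = c' := by exact_mod_cast q2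
  have q3 : m = m' := by
    rw [q2] at g4
    field_simp at g4
    exact_mod_cast g4
  rw [q1, q2', q3]

lemma count {k n : ℕ} (hk : 1 ≤ k) (hn : 3 * k ^ 3 ≤ n) : k ^ 4 ≤ u n := by
  classical
  obtain ⟨P, hP, hPc⟩ := Infinite.exists_superset_card_eq (pts k) n ((card_pts hk).trans hn)
  refine le_trans ?_ (le_u P hPc)
  have h1 : ((idx k).image tri).card = k ^ 4 := by
    rw [Finset.card_image_of_injOn tri_inj]
    unfold idx
    rw [Finset.card_product, Finset.card_product, Nat.card_Icc, Nat.card_Icc]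
    have e1 : k + 1 - 1 = k := by omega
    have e2 : k ^ 2 + 1 + 1 - 2 = k ^ 2 := by omega
    rw [e1, e2]; ring
  rw [← h1, ← Set.ncard_coe_finset]
  refine Set.ncard_le_ncard ?_ (finite_tri P)
  intro T hT
  rw [Finset.mem_coe, Finset.mem_image] at hT
  obtain ⟨i, hi, rfl⟩ := hT
  exact tri_good hi P hP

/-- For every `n ≥ 3` there are `n` points of the plane that span at least `n ^ (4 / 3) / 70`
triangles of perimeter `1`. -/
theorem result : ∀ n : ℕ, 3 ≤ n → (n : ℝ) ^ ((4 : ℝ) / 3) / 70 ≤ u n := by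
  intro n hn
  have hn3 : (1 : ℝ) ≤ (n : ℝ) / 3 := by
    rw [le_div_iff₀ (by norm_num)]; exact_mod_cast (by omega : 1 * 3 ≤ n)
  set z : ℝ := ((n : ℝ) / 3) ^ ((1 : ℝ) / 3) with hz
  have hz1 : 1 ≤ z := Real.one_le_rpow hn3 (by norm_num)
  have hz3 : z ^ 3 = (n : ℝ) / 3 := by
    rw [hz, ← Real.rpow_natCast, ← Real.rpow_mul (by positivity)]
    norm_num
  set k : ℕ := ⌊z⌋₊ with hk
  have hk1 : 1 ≤ k := Nat.le_floor (by exact_mod_cast hz1)
  have hkz : (k : ℝ) ≤ z := Nat.floor_le (by linarith)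
  have hzk : z < k + 1 := Nat.lt_floor_add_one z
  have hk1' : (1 : ℝ) ≤ k := by exact_mod_cast hk1
  have hle : 3 * k ^ 3 ≤ n := by
    have : (3 : ℝ) * k ^ 3 ≤ n := by
      have h := pow_le_pow_left₀ (by positivity) hkz 3
      rw [hz3] at h
      linarith
    exact_mod_cast this
  have hmain : ((k : ℝ)) ^ 4 ≤ u n := by exact_mod_cast count hk1 hle
  refine le_trans ?_ hmain
  have h2 : z / 2 ≤ k := by linarith
  have h4 : (z / 2) ^ 4 ≤ (k : ℝ) ^ 4 := pow_le_pow_left₀ (by positivity) h2 4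
  refine le_trans ?_ h4
  have hz4 : (z / 2) ^ 4 = ((n : ℝ) / 3) ^ ((4 : ℝ) / 3) / 16 := by
    have : z ^ 4 = ((n : ℝ) / 3) ^ ((4 : ℝ) / 3) := by
      rw [hz, ← Real.rpow_natCast, ← Real.rpow_mul (by positivity)]
      norm_num
    rw [div_pow, this]; norm_num
  rw [hz4, Real.div_rpow (by positivity) (by norm_num), div_div]
  have h3 : (3 : ℝ) ^ ((4 : ℝ) / 3) * 16 ≤ 70 := by
    have h5 : (3 : ℝ) ^ ((4 : ℝ) / 3) ≤ 35 / 8 := by
      have h6 : ((3 : ℝ) ^ ((4 : ℝ) / 3)) ^ 3 = 81 := by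
        rw [← Real.rpow_natCast, ← Real.rpow_mul (by norm_num)]
        norm_num
      have h7 : ((3 : ℝ) ^ ((4 : ℝ) / 3)) ^ 3 ≤ (35 / 8 : ℝ) ^ 3 := by
        rw [h6]; norm_num
      exact le_of_pow_le_pow_left₀ (by norm_num) (by norm_num) h7
    linarith
  have h8 : (0 : ℝ) < (3 : ℝ) ^ ((4 : ℝ) / 3) * 16 := by positivity
  have h9 : (0 : ℝ) ≤ (n : ℝ) ^ ((4 : ℝ) / 3) := by positivity
  exact div_le_div_of_nonneg_left h9 h8 h3

end Pool.Agent.Results.MP_75315a_co.FourThirds
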